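import Pool.Agent.MP_ee8c61_ag.TY.Spec
import Pool.Agent.MP_ee8c61_ag.TW.RCht

/-! The hypotheses on the divisor, read in a model. -/

namespace Pool.Agent.MP_ee8c61_ag.N3.LC

open H59 hiding pd
open MvPolynomial M3 M3E
open Pool.Agent.MP_ee8c61_ag.TC (Indep red SSs SPert)
open Pool.Agent.MP_ee8c61_ag.N3.TC.RCht (ch TT prod_TT mem_one le_red)

noncomputable section

namespace RCht

theorem v_eq {K : Type} [Field K] (d : DV K) {g z : K} {a : ℕ} (h0 : z ≠ 0) (h1 : d.v z = 1)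
    (h : d.O.valuation g = d.O.valuation z ^ a) : d.v g = a := by
  have hu : Un d.O (g / z ^ a) := un_iff.2 (by
    rw [map_div₀, map_pow, h, div_self (pow_ne_zero _ ((Valuation.ne_zero_iff _).2 h0))])
  obtain ⟨e0, e1⟩ := d.un_O.1 hu
  rw [d.div (fun e => e0 (by rw [e, zero_div])) (pow_ne_zero _ h0), d.pow, h1] at e1
  omega

variable {N : ℕ} [Base] {M : Mod N}

theorem un_U {b : M.ι} {U : (KK N)ˣ} (hU : M.S.IsU b U) {V : Vl N} (hV : M.In b V) :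
    Un V (U : KK N) := by
  refine ⟨U.ne_zero, hV _ hU.1, ?_⟩
  rw [← Units.val_inv_eq_inv_val]
  exact hV _ hU.2

theorem v_um (B : Bas1 M) {b : M.ι} {o : M.J} (hb : M.In b (M.v o).O) {U : (KK N)ˣ}
    (hU : M.S.IsU b U) (c : M.J → ℤ) : (M.v o).v (U * M.mon b c) = c o := by
  rw [(M.v o).mul _ _ U.ne_zero (M.mon_ne b c), ((M.v o).un_O.1 (un_U hU hb)).2, zero_add,
    B.v_mon b o c hb]

variable {r : ℕ} {F : Fin r → M3.Po N} {j : Fin r} {o : M.J}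

theorem ords (h : M.OK (pp N (F j))) (B : Bas1 M) {a k : ℕ}
    (hO : TY.Orders (F j) (M.v o).O a k) : M.a o = a ∧ M.k o = k := by
  obtain ⟨b, hb⟩ := h.cov _ (B.ov_v o)
  obtain ⟨-, hη, ⟨l, hl⟩, -⟩ := B.in_v b _ o hb ((B.thru_v o o).2 rfl)
  obtain ⟨U, hU, hd⟩ := h.det b
  obtain ⟨W, hW, hf⟩ := h.ord b
  obtain ⟨h1, h2⟩ := hO (ch h hl hη) (h.pol0 b)
  have e1 : (ch h hl hη).jac = U * M.mon b M.kk := by
    rw [← hd, h.r]
    rfl
  have e2 : ((ch h hl hη).z (ch h hl hη).l : KK N) = M.η b o := (M.S.η_some b o l hl).symm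
  have e3 : TW.rf (F j) = W * M.mon b M.aa := hf
  rw [e2] at h1 h2
  have a1 := v_eq _ (M.η_ne b o) (h.dv b o hη).2.1 h1
  have a2 := v_eq _ (M.η_ne b o) (h.dv b o hη).2.1 h2
  rw [e3, v_um B hb hW] at a1
  rw [e1, v_um B hb hU] at a2
  exact ⟨Int.natCast_inj.1 a1, Int.natCast_inj.1 a2⟩

theorem key {m : ℕ} {t : KK N} (h : M.OK (pp N (F j))) (B : Bas1 M)
    (hF : ∀ i, M3.ip N (F i) / M3.ip N (F j) ∈ Rb N) (hL : TY.LogPoles F j (M.v o).O m t)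
    {b : M.ι} (hb : M.In b (M.v o).O) : ∃ U g : KK N, (∀ V, M.In b V → Un V U) ∧ g ∈ M.S.A b ∧
      Un (M.v o).O g ∧ t * M.mon b (m • (M.kk + 1)) * U - g ∈ (M.v o).F 1 := by
  obtain ⟨-, hη, ⟨l, hl⟩, -⟩ := B.in_v b _ o hb ((B.thru_v o o).2 rfl)
  obtain ⟨U, hU, hd⟩ := h.det b
  obtain ⟨W, hW, hf⟩ := h.ord b
  have e3 : TW.rf (F j) = W * M.mon b M.aa := hf
  have hT : ∏ k ∈ TT M b M.aa, ((ch h hl hη).z k : KK N) = M.mon b (red M.aa) :=
    prod_TT M b M.aa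
  have hr : red M.aa = 1 := funext fun i => if_pos (Int.natCast_pos.2 (h.pos i))
  obtain ⟨g, hg, h1, h2⟩ := hL (ch h hl hη) (TT M b M.aa) (h.pol0 b)
    (fun i => h.pol b ⟨_, hF i⟩) ⟨∑ i, (M.aa i).toNat, by
      have := mul_mem hW.2 (B.mon_mem b _ (le_red (P := M.aa) fun i => Int.natCast_nonneg _))
      rw [sub_eq_add_neg, B.mon_add, B.mon_neg, B.mon_nsmul, Units.val_inv_eq_inv_val] at this
      rw [hT, e3, div_eq_mul_inv, mul_inv, mul_left_comm]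
      exact this⟩
  refine ⟨(U : KK N) ^ m, g, fun V hV => (un_U hU hV).pow m, hg, un_iff.2 h1, ?_⟩
  have e1 : (ch h hl hη).jac = U * M.mon b M.kk := by
    rw [← hd, h.r]
    rfl
  have := mem_one _ h2
  rw [hT, e1, hr] at this
  rw [B.mon_nsmul, B.mon_add, mul_assoc, ← mul_pow, mul_comm _ (U : KK N), ← mul_assoc (U : KK N)]
  exact this

end RCht

variable [Base]

theorem rCht : OfCht := fun E N r F j M o h hF => by
  have B := (E.bas N _ M h).toBas1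
  refine ⟨fun a k hO => RCht.ords h B hO, fun m t hL => ?_⟩
  have K := fun b => RCht.key h B hF hL (b := b)
  refine ⟨fun V _ hV b hb => ?_, ?_⟩
  · obtain ⟨U, g, h1, h2, -, h4⟩ := K b fun g hg => hV (hb g hg)
    have := add_mem (B.small V o hV _ h4).1 (hb g h2)
    rw [sub_add_cancel] at this
    exact (h1 V hb).mem_iff.1 this
  · obtain ⟨b, hb⟩ := h.cov _ (B.ov_v o)
    obtain ⟨U, g, h1, -, h3, h4⟩ := K b hb
    obtain ⟨g0, g1⟩ := (M.v o).un_O.1 h3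
    obtain ⟨a0, a1⟩ := (M.v o).un_O.1
      (((M.v o).un_O.2 ((M.v o).eq_of_sub g0 g1 (by rwa [zero_add]))).cancel (h1 _ hb))
    have s0 := left_ne_zero_of_mul a0
    rw [(M.v o).mul _ _ s0 (M.mon_ne b _), B.v_mon b o _ hb] at a1
    refine ⟨s0, ?_⟩
    simp only [Pi.smul_apply, Pi.add_apply, Mod.kk, Pi.one_apply, nsmul_eq_mul] at a1
    omega

end

end Pool.Agent.MP_ee8c61_ag.N3.LC
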