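import Pool.Agent.MP_ee8c61_ag.TY.Spec

/-! Pluricanonical sections lift from a divisor, with a fractional boundary. -/

namespace Pool.Agent.MP_ee8c61_ag.N3.LC

set_option linter.unusedSectionVars false

variable [Base]

open M3 N3.M3E

namespace RLift

variable {N : ℕ} {f : Po N} {M : N3.Mod N}

theorem small {J : Type} [Fintype J] (x : J → ℚ) :
    ∃ θ : ℚ, 0 < θ ∧ θ ≤ 1 ∧ ∀ j, θ * |x j| < 1 := by
  have h0 : 0 ≤ ∑ j, |x j| := Finset.sum_nonneg fun j _ => abs_nonneg _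
  refine ⟨1 / (1 + ∑ j, |x j|), by positivity, by rw [div_le_one (by linarith)]; linarith,
    fun j => ?_⟩
  have := Finset.single_le_sum (f := fun j => |x j|) (fun j _ => abs_nonneg _) (Finset.mem_univ j)
  rw [one_div, inv_mul_lt_iff₀ (by linarith)]
  linarith

/-- A small multiple of `L` is an ample divisor plus a divisor that corrects the boundary. -/
theorem split (hq : Aq M) (o : M.J) (A L B : M.J → ℚ) (hA : M.AmpQ A) (hAo : A o = L o)
    (hBo : B o = 0) (h : ∀ j, B j = 1 ∧ L j ≤ A j ∨ B j = 0 ∧ A j ≤ L j ∨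
      0 ≤ B j ∧ B j < 1 ∧ A j = L j) : ∃ (θ : ℚ) (A' β : M.J → ℚ), 0 < θ ∧ θ ≤ 1 ∧ M.AmpQ A' ∧
      β o = 0 ∧ (∀ j, β j < 1) ∧ M.up (-β) = 0 ∧ ∀ j, B j + θ * L j = A' j + β j := by
  classical
  let s : M.J → ℚ := fun j => if B j = 1 then 1 else 0
  obtain ⟨η, η0, hη⟩ := hq.opn A s hA
  obtain ⟨θ, θ0, θ1, hθ⟩ := small fun j => L j - A j - η * s j
  have hb : ∀ j, 0 ≤ B j + θ * (L j - A j - η * s j) ∧ B j + θ * (L j - A j - η * s j) < 1 := by
    intro j
    have a1 := hθ j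
    have a2 := mul_le_mul_of_nonneg_left (le_abs_self (L j - A j - η * s j)) θ0.le
    have a3 := mul_le_mul_of_nonneg_left (neg_abs_le (L j - A j - η * s j)) θ0.le
    rw [mul_neg] at a3
    obtain ⟨h1, h2⟩ | ⟨h1, h2⟩ | ⟨h1, h2, h3⟩ := h j
    · have e : s j = 1 := if_pos h1
      have := mul_neg_of_pos_of_neg θ0 (show L j - A j - η * s j < 0 by rw [e]; linarith)
      exact ⟨by linarith, by linarith⟩
    · have e : s j = 0 := if_neg (by rw [h1]; norm_num)
      have := mul_nonneg θ0.le (show 0 ≤ L j - A j - η * s j by rw [e]; linarith)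
      exact ⟨by linarith, by linarith⟩
    · have e : s j = 0 := if_neg h2.ne
      rw [e, h3]
      exact ⟨by linarith, by linarith⟩
  refine ⟨θ, θ • (A + η • s), fun j => B j + θ * (L j - A j - η * s j), θ0, θ1,
    hq.smul _ θ θ0 (hη η η0.le le_rfl), ?_, fun j => (hb j).2, funext fun j => ?_, fun j => ?_⟩
  · have e : s o = 0 := if_neg (by rw [hBo]; norm_num)
    simp [e, hBo, hAo]
  · show ⌈-(B j + θ * (L j - A j - η * s j))⌉ = 0
    rw [Int.ceil_eq_zero_iff]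
    exact ⟨by linarith [(hb j).2], by linarith [(hb j).1]⟩
  · simp only [Pi.smul_apply, Pi.add_apply, smul_eq_mul]
    ring

theorem fl {x : ℚ} (h0 : 0 ≤ x) (h1 : x ≤ 1) (p : ℕ) :
    (⌊((p + 1 : ℕ) : ℚ) * x⌋ - ⌊(p : ℚ) * x⌋ = 1 ∧ 0 < x) ∨
      (⌊((p + 1 : ℕ) : ℚ) * x⌋ - ⌊(p : ℚ) * x⌋ = 0 ∧ x < 1) := by
  have e : ((p + 1 : ℕ) : ℚ) * x = p * x + x := by push_cast; ring
  have a1 : ⌊(p : ℚ) * x⌋ ≤ ⌊p * x + x⌋ := Int.floor_mono (by linarith)
  have a2 : ⌊p * x + x⌋ ≤ ⌊(p : ℚ) * x + 1⌋ := Int.floor_mono (by linarith)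
  rw [Int.floor_add_one] at a2
  rw [e]
  by_cases h : ⌊p * x + x⌋ = ⌊(p : ℚ) * x⌋
  · refine Or.inr ⟨by omega, lt_of_le_of_ne h1 fun e1 => ?_⟩
    rw [e1, Int.floor_add_one] at h
    omega
  · exact Or.inl ⟨by omega, lt_of_le_of_ne h0 fun e1 => h (by rw [← e1, add_zero])⟩

end RLift

theorem rLift : OfLift := by
  intro E N f M hM o A m c hA hAo hm hc σ hσ
  have hB := E.bas N f M hM
  have hq := E.aq N f M hM
  obtain ⟨w, hw⟩ := hM.amp
  set K : M.J → ℤ := M.kk + M.e o with hK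
  obtain ⟨L, hL⟩ : ∃ L : M.J → ℚ, ∀ j, L j = max (M.k j : ℚ) (min (A j) (M.k j + 1)) :=
    ⟨_, fun _ => rfl⟩
  simp only [← hL] at hc
  have Lo : L o = M.k o + 1 := by rw [hL, hAo, min_self, max_eq_right (by linarith)]
  obtain ⟨B, hB0⟩ : ∃ B : M.J → ℚ, ∀ j, L j = K j + B j := ⟨fun j => L j - K j, fun j => by ring⟩
  have Bo : B o = 0 := by
    have := hB0 o
    simp only [Lo, hK, Mod.kk, Pi.add_apply, Mod.e_apply, if_true] at this
    push_cast at this
    linarith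
  have hj : ∀ j, 0 ≤ B j ∧ B j ≤ 1 ∧ (0 < B j → L j ≤ A j) ∧ (B j < 1 → A j ≤ L j) := fun j => by
    by_cases h : j = o
    · rw [h, Bo, Lo, hAo]
      exact ⟨le_rfl, zero_le_one, fun _ => le_rfl, fun _ => le_rfl⟩
    · have e : (K j : ℚ) = M.k j := by simp [hK, Mod.kk, Mod.e_apply, h]
      have e1 := hB0 j
      have e2 := hL j
      rw [e] at e1
      rcases max_cases (M.k j : ℚ) (min (A j) (M.k j + 1)) with h1 | h1 <;>
        rcases min_cases (A j) (M.k j + 1 : ℚ) with h2 | h2 <;>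
        refine ⟨?_, ?_, fun _ => ?_, fun _ => ?_⟩ <;> linarith [h1.1, h1.2, h2.1, h2.2]
  obtain ⟨C, hC⟩ : ∃ C : ℕ → M.J → ℤ, ∀ p j, C p j = p * K j + ⌊(p : ℚ) * B j⌋ :=
    ⟨fun p j => _, fun _ _ => rfl⟩
  have hm0 : (0 : ℚ) < m := by exact_mod_cast (by omega : 0 < m)
  have C0 : C 0 = 0 := funext fun j => by simp [hC]
  have Cm : C m = c := funext fun j => by
    have e : (m : ℚ) * B j = ((c j - m * K j : ℤ) : ℚ) := by
      push_cast
      rw [hc, hB0]
      ring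
    rw [hC, e, Int.floor_intCast]
    ring
  have hev : ∀ᶠ k : ℕ in Filter.atTop, (∀ p ∈ Finset.range (m + 1), M.Amp (k • w + C p) ∧
      M.Amp ((m * k) • w + (m • C p - p • c))) ∧ M.Amp (k • w + (C 1 - K)) := by
    refine ((Filter.eventually_all_finset _).2 fun p _ => ?_).and
      (Filter.eventually_atTop.2 (E.a1 N f M hM w _ hw))
    refine (Filter.eventually_atTop.2 (E.a1 N f M hM w _ hw)).and ?_
    obtain ⟨r0, h⟩ := E.a1 N f M hM w (m • C p - p • c) hw
    exact Filter.eventually_atTop.2 ⟨r0, fun k hk => h _ (hk.trans (by nlinarith))⟩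
  obtain ⟨r, hr, hr1⟩ := hev.exists
  have hpow : ∀ k : ℕ, σ ^ k ∈ M.R o (k • c) := fun k V h1 h2 => hB.oc_pow V _ σ k (hσ V h1 h2)
  have step : ∀ (k p : ℕ), p < m → (k * m + p ≠ 0 → ∀ u ∈ M.R o (r • w + C p),
      M.Lf o (k • c + (r • w + C p)) (σ ^ k * u)) → ∀ u ∈ M.R o (r • w + C (p + 1)),
      M.Lf o (k • c + (r • w + C (p + 1))) (σ ^ k * u) := by
    intro k p hp ih u hu
    obtain ⟨h1, h2⟩ := hr p (Finset.mem_range.2 (by omega))
    obtain ⟨T, hT⟩ := hB.amp_free _ h1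
    have hU := hB.gens_bpf o _ T hT
    by_cases h0 : k * m + p = 0
    · obtain ⟨rfl, rfl⟩ : k = 0 ∧ p = 0 := ⟨by nlinarith, by omega⟩
      have := E.l0 N f M hM o _ (hq.of_amp _ hr1) u
      rw [Mod.up_q, ← hK, show K + (r • w + (C 1 - K)) = r • w + C 1 by ring] at this
      rw [zero_smul, zero_add, pow_zero, one_mul]
      exact this hu
    have k0 : (0 : ℚ) < k * m + p := by exact_mod_cast Nat.pos_of_ne_zero h0
    have k1 : (1 : ℚ) ≤ k * m + p := by exact_mod_cast Nat.pos_of_ne_zero h0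
    obtain ⟨θ, A', β, θ0, θ1, a1, b0, b1, b2, e⟩ := RLift.split hq o A L
      (fun j => ((⌊((p + 1 : ℕ) : ℚ) * B j⌋ - ⌊(p : ℚ) * B j⌋ : ℤ) : ℚ)) hA (hAo.trans Lo.symm)
      (by simp [Bo]) fun j => by
        obtain ⟨x1, x2, x3, x4⟩ := hj j
        obtain ⟨y1, y2⟩ | ⟨y1, y2⟩ := RLift.fl x1 x2 p
        · exact Or.inl ⟨by rw [y1, Int.cast_one], x3 y2⟩
        · exact Or.inr (Or.inl ⟨by rw [y1, Int.cast_zero], x4 y2⟩)
    have t0 : θ / (k * m + p) ≤ 1 := by rw [div_le_one k0]; linarith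
    have t1 : 0 < θ / (k * m + p) := div_pos θ0 k0
    have key := E.l N f M hM o (k • c + (r • w + C (p + 1))) (k • c + (r • w + C p)) (k • c) 0
      (A' + (θ / (k * m + p) / m) • M.q ((m * r) • w + (m • C p - p • c))) β
      (1 - θ / (k * m + p)) 1 (σ ^ k) T rfl
      (hq.add _ _ a1 (hq.smul' _ _ (div_pos t1 hm0).le (hq.semi _ (hq.of_amp _ h2)))) b0
      (by linarith) one_pos (by push_cast; linarith) (fun j => by simpa using b1 j)
      (funext fun j => by
        have e1 := e j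
        simp only [← hK, Mod.q_apply, Pi.add_apply, Pi.sub_apply, Pi.smul_apply, smul_eq_mul,
          nsmul_eq_mul, Pi.mul_apply, Pi.natCast_apply, hC]
        push_cast at e1 ⊢
        rw [show β j = _ from (sub_eq_of_eq_add' e1).symm, hc]
        field_simp
        ring)
      (hpow k) (by rwa [one_smul, sub_zero, add_sub_cancel_left])
      (fun v hv => by rw [pow_one]; exact ih h0 v (hU.1 v hv)) u (by rwa [add_sub_cancel_left])
    rwa [b2, add_zero] at key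
  have h0 := (hr 0 (Finset.mem_range.2 (by omega))).1
  rw [C0, add_zero] at h0
  obtain ⟨T, hT⟩ := hB.amp_free _ h0
  have hU := hB.gens_bpf o _ T hT
  have inner : ∀ k : ℕ, (k * m + 0 ≠ 0 → ∀ u ∈ M.R o (r • w + C 0),
      M.Lf o (k • c + (r • w + C 0)) (σ ^ k * u)) → ∀ p, p ≤ m → k * m + p ≠ 0 →
      ∀ u ∈ M.R o (r • w + C p), M.Lf o (k • c + (r • w + C p)) (σ ^ k * u) := by
    intro k hk p
    induction p with
    | zero => exact fun _ => hk
    | succ p ih => exact fun hp _ => step k p hp (ih (by omega))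
  have outer : ∀ k : ℕ, k * m + 0 ≠ 0 → ∀ u ∈ M.R o (r • w + C 0),
      M.Lf o (k • c + (r • w + C 0)) (σ ^ k * u) := by
    intro k
    induction k with
    | zero => exact fun h => absurd (by simp) h
    | succ k ih =>
      intro _ u hu
      rw [C0, add_zero] at hu ⊢
      have h1 := inner k ih m le_rfl (by omega) (σ * u) (by
        rw [Cm, add_comm]
        exact fun V a b => hB.oc_mul V _ _ σ u (hσ V a b) (hu V a b))
      rw [Cm] at h1
      rw [succ_nsmul, add_assoc, add_comm c, pow_succ, mul_assoc]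
      exact h1
  obtain ⟨θ, A', β, θ0, θ1, a1, b0, b1, b2, e⟩ := RLift.split hq o A L B hA (hAo.trans Lo.symm)
    Bo fun j => by
      obtain ⟨x1, x2, x3, x4⟩ := hj j
      by_cases y1 : B j = 1
      · exact Or.inl ⟨y1, x3 (by rw [y1]; norm_num)⟩
      by_cases y2 : B j = 0
      · exact Or.inr (Or.inl ⟨y2, x4 (by rw [y2]; norm_num)⟩)
      exact Or.inr (Or.inr ⟨x1, lt_of_le_of_ne x2 y1,
        le_antisymm (x4 (lt_of_le_of_ne x2 y1)) (x3 (lt_of_le_of_ne x1 (Ne.symm y2)))⟩)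
  obtain ⟨ε, hε, hop⟩ := hq.opn A' (-M.q (r • w)) a1
  obtain ⟨k, hk⟩ := exists_nat_gt ε⁻¹
  have hk0 : (0 : ℚ) < k := (inv_pos.2 hε).trans hk
  have hk1 : 0 < k := by exact_mod_cast hk0
  have hm1 : (2 : ℚ) ≤ m := by exact_mod_cast hm
  have ht0 : (0 : ℚ) ≤ (m - 1 - θ) / (k * m) := div_nonneg (by linarith) (mul_pos hk0 hm0).le
  have ht1 : ((m : ℚ) - 1 - θ) / (k * m) * k ≤ 1 := by
    rw [div_mul_eq_mul_div, div_le_one (mul_pos hk0 hm0)]
    nlinarith
  have ht2 : ((m : ℚ) - 1 - θ) / (k * m) ≤ ε := by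
    have h1 : 1 < ε * k := by rwa [inv_lt_iff_one_lt_mul₀' hε] at hk
    exact le_of_mul_le_mul_right (ht1.trans h1.le) hk0
  have out := outer k (by nlinarith)
  rw [C0, add_zero] at out
  have key := E.l N f M hM o c (k • c + r • w) c 0 _ β ((m - 1 - θ) / (k * m)) k σ T rfl
    (hop _ ht0 ht2) b0 ht0 hk1 ht1 (fun j => by simpa using b1 j)
    (funext fun j => by
      have e1 := e j
      have e2 := hB0 j
      simp only [← hK, Mod.q_apply, Pi.add_apply, Pi.neg_apply, Pi.smul_apply, smul_eq_mul,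
        nsmul_eq_mul, Pi.mul_apply, Pi.natCast_apply]
      push_cast
      rw [show β j = _ from (sub_eq_of_eq_add' e1).symm, hc,
        show B j = L j - K j by linarith]
      field_simp
      ring)
    hσ (by rwa [sub_zero, add_sub_cancel_left]) (fun u hu => out u (hU.1 u hu)) 1
    (fun V _ _ b _ => by rw [sub_self, hB.mon_zero, one_mul]; exact one_mem _)
  rwa [b2, add_zero, mul_one] at key

end Pool.Agent.MP_ee8c61_ag.N3.LC
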