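import Pool.Agent.MP_ee8c61_ag.TY.Spec
import Pool.Agent.MP_ee8c61_ag.TC.RInd

/-! The theorem from the rows. -/

namespace Pool.Agent.MP_ee8c61_ag.N3.LC

open MvPolynomial M3
open Pool.Agent.MP_ee8c61_ag.TC.RInd

theorem rMain : OfMain := by
  intro hB hE hR hC hA n r f b j O a k m g hb hD hO hF h0 hf ho hm hg H hi
  have nu : ¬Un O (M3.ip _ (f j)) := (not_un_iff (hO _)).2 hf
  obtain ⟨B, gd, ov, β, Q, bs⟩ := hB _ r f j b hb h0
  have ind : ∀ P : M3.Po n, P ≠ 0 → Un O (aeval (fun i : Fin n => g i.succ / g 0) P) :=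
    fun P hP => un_iff.2 (hi P hP)
  have f0 : M3.ip (n + 1) (f j) ≠ 0 := M3B1.ip_ne h0
  have K : ∀ (M : N3.Mod (n + 1)) (o : M.J), M.OK (pp _ (f j)) → (M.v o).O = O →
      M.a o = a ∧ M.k o = k ∧ (M.v o).v (M3.ip _ (f j)) = a ∧
        ∀ l, g l ∈ M.R o (m • (M.kk + 1)) ∧ g l ≠ 0 ∧ (M.v o).v (g l) = -(m * (k + 1)) := by
    intro M o ok e
    subst e
    obtain ⟨c1, c2⟩ := hC B _ r f j M o ok fun i => mem_Rb.2 fun V hV => ((ov V).1 hV).2 i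
    obtain ⟨rfl, rfl⟩ := c1 a k ho
    have Bs := (hE B).bas _ _ M ok
    exact ⟨rfl, rfl, ((Bs.gen_v o _ _).1 (Bs.gen_f _)).2.trans (neg_neg _),
      fun l => c2 m (g l) (H l)⟩
  obtain ⟨M0, o0, -, ok0, e0, -⟩ := hR B n 0 (pp _ (f j)) O Fin.elim0 _ gd hD
    ((ov O).2 ⟨hO, hF⟩) nu (fun i => i.elim0) ind
  obtain ⟨-, -, vf0, k0⟩ := K M0 o0 ok0 e0
  obtain ⟨M, o, P, ok, e, fr, -, po, hP⟩ := hR B n (n + 1) (pp _ (f j)) O
    (fun l => g l ^ a * M3.ip _ (f j) ^ (m * (k + 1))) _ gd hD ((ov O).2 ⟨hO, hF⟩) nu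
    (fun l => ⟨by
      rw [← e0]
      refine Or.inr ?_
      rw [(M0.v o0).mul _ _ (pow_ne_zero _ (k0 l).2.1) (pow_ne_zero _ f0), DV.pow, DV.pow, vf0,
        (k0 l).2.2]
      push_cast
      exact le_of_eq (by ring), by
      obtain ⟨d, p, h⟩ := hg l
      refine ⟨d * a, pp _ (p ^ a * f j ^ (m * (k + 1))), ?_⟩
      have h' : g l * M3.ip _ (f j) ^ d = M3.ip _ p := h
      rw [ip_pp, ip_pp, map_mul, map_pow, map_pow, ← h']
      ring⟩) ind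
  obtain ⟨ea, ek, -, kg⟩ := K M o ok e
  have Bs := (hE B).bas _ _ M ok
  obtain ⟨a, rfl⟩ := Nat.exists_eq_succ_of_ne_zero (ea ▸ (ok.pos o).ne' : a ≠ 0)
  set P' := P + -((m * (k + 1)) • -M.aa)
  have h1 : ∀ l V, Ov V → M.Oc V P' (g l ^ (a + 1)) := fun l V hV => by
    have := Bs.oc_mul V _ _ _ _ (hP l V hV)
      (Bs.gen_oc V _ _ (Bs.gen_inv V _ _ (Bs.gen_pow V _ _ (m * (k + 1)) (Bs.gen_f V))))
    rwa [ip_pp, mul_inv_cancel_right₀ (pow_ne_zero _ f0)] at this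
  have h2 : ∀ l, g 0 ^ a * g l ∈ M.R o P' := fun l V hV _ => by
    refine Bs.oc_root V _ _ (a + 1) a.succ_pos ?_
    rw [mul_pow, pow_right_comm, succ_nsmul]
    exact Bs.oc_mul V _ _ _ _ (Bs.oc_pow V _ _ a (h1 0 V hV)) (h1 l V hV)
  have h3 : ∀ l, g 0 ^ a * g l ∈ M.R o (((a + 1) * m) • (M.kk + 1)) := fun l V hV h => by
    rw [mul_smul, succ_nsmul]
    exact Bs.oc_mul V _ _ _ _ (Bs.oc_pow V _ _ a ((kg 0).1 V hV h)) ((kg l).1 V hV h)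
  have h4 : P' o = (((a + 1) * m : ℕ) : ℤ) * (M.k o + 1) := by
    show P o + -((m * (k + 1)) • -(M.a o : ℤ)) = _
    rw [po, ea, ek, nsmul_eq_mul]
    push_cast
    ring
  have g0 := pow_ne_zero a (kg 0).2.1
  have a0 : ((a + 1 : ℕ) : ℚ) ≠ 0 := Nat.cast_ne_zero.2 a.succ_ne_zero
  have := hA B n (pp _ (f j)) ((k + 1) / (a + 1 : ℕ)) b β Q M o P' ((a + 1) * m) _
    (fun i => g 0 ^ a * g i.succ) bs ok (by
      show (M.k o : ℚ) + 1 - (k + 1) / (a + 1 : ℕ) * M.a o = 0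
      rw [ea, ek, div_mul_cancel₀ _ a0, sub_self])
    (Bs.free_add _ _ fr (by
      rw [smul_neg, neg_neg, ← natCast_zsmul]
      exact Bs.free_aa _)) (Nat.mul_pos a.succ_pos hm) h4 (h3 0) (h2 0)
    (mul_ne_zero g0 (kg 0).2.1) (by
      rw [(M.v o).mul _ _ g0 (kg 0).2.1, DV.pow, (kg 0).2.2, h4, ek]
      push_cast
      ring) (fun i => h3 i.succ) (fun i => h2 i.succ) fun P hP => by
      simp only [mul_div_mul_left _ _ g0]
      exact (M.v o).un_O.1 (e ▸ ind P hP)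
  simpa using this

end Pool.Agent.MP_ee8c61_ag.N3.LC
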