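import Pool.Agent.MP_ee8c61_ag.TY.Spec

/-! A section of two divisors is a section of their infimum. -/

namespace Pool.Agent.MP_ee8c61_ag.N3.LC

open MvPolynomial M3 N3.M3E Finset

namespace RMin

variable {N : ℕ} {M : N3.Mod N}

/-- The exponent of a coordinate. -/
def ex (b : M.ι) (c : M.J → ℤ) (l : Fin N) : ℕ := ∑ j with M.S.lab b j = some l, (c j).toNat

theorem mon_prod (b : M.ι) {c : M.J → ℤ} (hc : 0 ≤ c) :
    M.mon b c = ∏ l, M.S.z b l ^ ex b c l := by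
  classical
  rw [N3.Mod.mon_eq, ← prod_fiberwise univ (M.S.lab b), Fintype.prod_option,
    prod_eq_one fun j hj => by
      rw [show M.η b j = 1 from congrArg _ (M.S.η_none b j (mem_filter.1 hj).2), one_zpow], one_mul]
  refine prod_congr rfl fun l _ => ?_
  rw [ex, ← prod_pow_eq_pow_sum]
  refine prod_congr (by ext; simp) fun j hj => ?_
  rw [← M.S.η_some b j l (mem_filter.1 hj).2, ← zpow_natCast, Int.toNat_of_nonneg (hc j)]

theorem ex_zero {b : M.ι} {c : M.J → ℤ} {j : M.J} {l : Fin N} (hl : M.S.lab b j = some l)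
    (h0 : c j = 0) : ex b c l = 0 := sum_eq_zero fun i hi => by
  rw [M.S.lab_inj b i j l (mem_filter.1 hi).2 hl, h0]
  rfl

end RMin

variable [Base]

open RMin in
theorem rMin : OfMin := by
  intro E hA N f M hM o c c' ho s hs hs' V hV hle b hb
  have B := E.bas N f M hM
  obtain ⟨hbo, h1, ⟨l, hl⟩, -⟩ := B.in_v b V o hb (B.thru_le V o hV hle)
  obtain ⟨-, vη, hdv⟩ := hM.dv b o h1
  have hη : M.η b o = M.S.z b l := M.S.η_some b o l hl
  have ns : ∀ d, s ∈ M.R o d → ∃ a ∈ M.S.A b,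
      s * M.mon b (c ⊓ c') * M.mon b (d - c ⊓ c') - a ∈ (M.v o).F 1 := fun d hd => by
    obtain ⟨e, a, h2, h3⟩ := E.ns N f M hM b o 1 (one_mem _) hbo un_one (s * M.mon b d)
      fun W hW _ hWo => hd W (B.ov b W hW) hWo b hW
    refine ⟨a, h2, ?_⟩
    rwa [one_pow, div_one, ← add_sub_cancel (c ⊓ c') d, B.mon_add,
      ← mul_assoc] at h3
  obtain ⟨a, ha, h2⟩ := ns c hs
  obtain ⟨a', ha', h2'⟩ := ns c' hs'
  have p0 : 0 ≤ c - c ⊓ c' := sub_nonneg.2 inf_le_left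
  have p0' : 0 ≤ c' - c ⊓ c' := sub_nonneg.2 inf_le_right
  have q0 : (c - c ⊓ c') o = 0 := by simp [ho]
  have q0' : (c' - c ⊓ c') o = 0 := by simp [ho]
  have dj : ∀ j, (c - c ⊓ c') j = 0 ∨ (c' - c ⊓ c') j = 0 := fun j => by
    simp only [Pi.sub_apply, Pi.inf_apply]
    omega
  generalize s * M.mon b (c ⊓ c') = σ at h2 h2' ⊢
  generalize c - c ⊓ c' = p at h2 p0 q0 dj
  generalize c' - c ⊓ c' = p' at h2' p0' q0' dj
  have mA := B.mon_mem b p p0
  have mA' := B.mon_mem b p' p0'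
  have h3 : a * M.mon b p' - a' * M.mon b p ∈ (M.v o).F 1 := by
    have := sub_mem ((M.v o).F_mul (m' := 0) h2' (hbo _ mA))
      ((M.v o).F_mul (m' := 0) h2 (hbo _ mA'))
    rw [add_zero] at this
    exact Eq.subst (motive := (· ∈ (M.v o).F 1)) (by ring) this
  have cp : ∀ q : M.J → ℤ, 0 ≤ q → ((∏ k, (⟨M.S.z b k, M.S.z_mem b k⟩ : M.S.A b) ^ ex b q k :
      M.S.A b) : KK N) = M.mon b q := fun q hq => by
    rw [mon_prod b hq]
    exact map_prod (M.S.A b).val _ _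
  obtain ⟨y, r, hr⟩ := hA (M.S.A b) N (fun k => ⟨M.S.z b k, M.S.z_mem b k⟩) l (ex b p) (ex b p')
    ⟨a, ha⟩ ⟨a', ha'⟩ (hM.et b) (ex_zero hl q0') (fun k => by
      by_cases hk : ∃ j, M.S.lab b j = some k
      · obtain ⟨j, hj⟩ := hk
        exact (dj j).imp (ex_zero hj) (ex_zero hj)
      · exact Or.inl (sum_eq_zero fun i hi => (hk ⟨i, (mem_filter.1 hi).2⟩).elim))
    ⟨⟨_, hdv _ (sub_mem (mul_mem ha mA') (mul_mem ha' mA)) h3⟩, Subtype.ext (by
      rw [AddSubgroupClass.coe_sub, MulMemClass.coe_mul, MulMemClass.coe_mul, cp p p0, cp p' p0']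
      change _ = M.S.z b l * (_ * (M.η b o)⁻¹)
      rw [← hη, mul_comm (M.η b o), inv_mul_cancel_right₀ (M.η_ne b o)])⟩
  have h4 := congrArg Subtype.val hr
  rw [AddSubgroupClass.coe_sub, MulMemClass.coe_mul, MulMemClass.coe_mul, cp p p0] at h4
  have h5 : a - y * M.mon b p ∈ (M.v o).F 1 := by
    have := (M.v o).F_mul (m := 1) (m' := 0) (g := M.S.z b l) (Or.inr (hη ▸ vη.ge)) (hbo _ r.2)
    rw [add_zero] at this
    exact h4 ▸ this
  have h6 : (M.mon b p)⁻¹ ∈ (M.v o).F 0 := Or.inr (by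
    rw [(M.v o).inv, B.v_mon b o p hbo, q0, neg_zero])
  have h7 := (M.v o).F_mul (add_mem h2 h5) h6
  have h8 := add_mem (B.small V o hle _ (by simpa using h7)).1 (hb _ y.2)
  refine Eq.subst (motive := (· ∈ V)) ?_ h8
  have := M.mon_ne b p
  field_simp
  ring

end Pool.Agent.MP_ee8c61_ag.N3.LC
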