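import Pool.Agent.MP_ee8c61_ag.TY.Spec

/-! Coprime monomials on a coordinate hyperplane of an etale chart. -/

namespace Pool.Agent.MP_ee8c61_ag.N3.LC

open MvPolynomial

namespace RMinA

theorem colon {N : ℕ} (l : Fin N) (s s' : Fin N →₀ ℕ) (hl : s' l = 0)
    (hc : ∀ k, s k = 0 ∨ s' k = 0) (g : MvPolynomial (Fin N) ℂ)
    (h : monomial s' (1 : ℂ) * g ∈
      Ideal.span ((fun t => monomial t (1 : ℂ)) '' {Finsupp.single l 1, s})) :
    g ∈ Ideal.span ((fun t => monomial t (1 : ℂ)) '' {Finsupp.single l 1, s}) := by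
  rw [mem_ideal_span_monomial_image] at h ⊢
  intro d hd
  have h1 : s' + d ∈ (monomial s' (1 : ℂ) * g).support := by
    rw [mem_support_iff, coeff_monomial_mul, one_mul]
    exact mem_support_iff.1 hd
  obtain ⟨t, ht, hle⟩ := h _ h1
  refine ⟨t, ht, fun k => ?_⟩
  have h2 : t k ≤ s' k + d k := hle k
  rcases ht with rfl | rfl
  · by_cases hk : l = k
    · subst hk
      omega
    · rw [Finsupp.single_eq_of_ne (Ne.symm hk)]
      exact Nat.zero_le _
  · rcases hc k with h0 | h0 <;> omega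

theorem mono {A : Type} [CommRing A] [Algebra ℂ A] {N : ℕ} (z : Fin N → A) (p : Fin N → ℕ) :
    aeval (R := ℂ) z (monomial (Finsupp.equivFunOnFinite.symm p) (1 : ℂ)) = ∏ k, z k ^ p k := by
  rw [aeval_monomial, map_one, one_mul, Finsupp.prod_fintype _ _ fun _ => pow_zero _]
  rfl

end RMinA

open RMinA in
theorem rMinA : SMinA := by
  intro A _ _ N z l p p' a a' hE hl hc ⟨c, hcz⟩
  set φ := (aeval (R := ℂ) z).toRingHom with hφ
  algebraize [φ]
  have hs : ∀ (r : MvPolynomial (Fin N) ℂ) (x : A), r • x = aeval (R := ℂ) z r * x :=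
    fun r x => Algebra.smul_def r x
  set s : Fin N →₀ ℕ := Finsupp.equivFunOnFinite.symm p with hsd
  set s' : Fin N →₀ ℕ := Finsupp.equivFunOnFinite.symm p' with hsd'
  have hX : aeval (R := ℂ) z (monomial (Finsupp.single l 1) (1 : ℂ)) = z l := aeval_X z l
  have hrel : ∑ i : Fin 3, (![monomial s' (1 : ℂ), -monomial s 1,
      -monomial (Finsupp.single l 1) 1] : Fin 3 → MvPolynomial (Fin N) ℂ) i •
      (![a, a', c] : Fin 3 → A) i = 0 := by
    simp only [Fin.sum_univ_three, Matrix.cons_val_zero, Matrix.cons_val_one, Matrix.cons_val_two,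
      Matrix.head_cons, Matrix.tail_cons, hs, map_neg, hX, hsd, hsd', mono]
    linear_combination hcz
  have hF : Module.Flat (MvPolynomial (Fin N) ℂ) A := inferInstance
  obtain ⟨k, m, y, hy, hm⟩ := Module.Flat.isTrivialRelation_of_sum_smul_eq_zero
    (R := MvPolynomial (Fin N) ℂ) (M := A) hrel
  have hI : ∀ j, m 0 j ∈
      Ideal.span ((fun t => monomial t (1 : ℂ)) '' {Finsupp.single l 1, s}) := fun j => by
    refine colon l s s' hl hc _ ?_
    have h1 := hm j
    simp only [Fin.sum_univ_three, Matrix.cons_val_zero, Matrix.cons_val_one, Matrix.cons_val_two,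
      Matrix.head_cons, Matrix.tail_cons] at h1
    have h2 : monomial s' (1 : ℂ) * m 0 j =
        monomial s 1 * m 1 j + monomial (Finsupp.single l 1) 1 * m 2 j := by
      linear_combination h1
    rw [h2]
    exact add_mem (Ideal.mul_mem_right _ _ (Ideal.subset_span ⟨s, by simp, rfl⟩))
      (Ideal.mul_mem_right _ _ (Ideal.subset_span ⟨_, by simp, rfl⟩))
  have ha : a ∈ Ideal.span {z l, ∏ k, z k ^ p k} := by
    have h0 : a = ∑ j, m 0 j • y j := hy 0
    rw [h0]
    refine Ideal.sum_mem _ fun j _ => ?_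
    rw [hs]
    refine Ideal.mul_mem_right _ _ ?_
    have h3 := hI j
    rw [Set.image_pair, Ideal.mem_span_pair] at h3
    obtain ⟨u, v, huv⟩ := h3
    rw [← huv, map_add, map_mul, map_mul, hX, hsd, mono]
    exact Ideal.mem_span_pair.2 ⟨_, _, rfl⟩
  obtain ⟨u, v, huv⟩ := Ideal.mem_span_pair.1 ha
  exact ⟨v, u, by linear_combination -huv⟩

end Pool.Agent.MP_ee8c61_ag.N3.LC
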