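import Pool.Agent.MP_ee8c61_ag.TY.Spec
import Pool.Agent.MP_ee8c61_ag.TW.RNk

/-! The lemma of Kodaira on the divisor. -/

namespace Pool.Agent.MP_ee8c61_ag.N3.LC

open Pool.Agent.MP_ee8c61_ag.TC (Indep red SSs SPert)

set_option linter.unusedSectionVars false

variable [Base]

open MvPolynomial M3 N3.M3E

namespace RNkR

/-- A function on the divisor that is regular where `w` does not vanish is cleared by `w`. -/
theorem aw (E : EOut) {N : ℕ} {f : Po N} {M : N3.Mod N} (hM : M.OK f) (o : M.J) (b : M.ι)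
    (w x : KK N) (hw : ∀ V, M.In b V → V ≤ (M.v o).O → w ∈ V)
    (hu : M.In b (M.v o).O → Un (M.v o).O w)
    (hx : ∀ V, M.In b V → V ≤ (M.v o).O → w⁻¹ ∈ V → x ∈ V) :
    ∃ e : ℕ, ∀ V, M.In b V → V ≤ (M.v o).O → w ^ e * x ∈ V := by
  have B := E.bas _ f M hM
  by_cases hb : M.In b (M.v o).O
  swap
  · exact ⟨0, fun V h1 h2 => absurd (fun g hg => h2 (h1 g hg)) hb⟩
  obtain ⟨e0, t, htA, ht1⟩ :=
    E.ns _ f M hM b o 1 (one_mem _) hb un_one w fun V h1 _ h2 => hw V h1 h2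
  rw [one_pow, div_one] at ht1
  have hUt : Un (M.v o).O t := by
    have h1 := B.small _ o le_rfl _ (neg_mem ht1)
    have h2 := (hu hb).add h1.1 h1.2
    rwa [show w + -(w - t) = t by ring] at h2
  obtain ⟨e, g, hgA, hg1⟩ := E.ns _ f M hM b o t htA hb hUt x fun V h1 h2 h3 => by
    have h4 := B.small V o h3 _ ht1
    have h5 := (show Un V t from ⟨hUt.1, h1 t htA, h2⟩).add h4.1 h4.2
    rw [show t + (w - t) = w by ring] at h5
    exact hx V h1 h3 h5.2.2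
  refine ⟨e, fun V h1 h2 => ?_⟩
  have h3 : (w - t) * t⁻¹ ∈ (M.v o).F 1 := by
    have := (M.v o).F_mul ht1 ((M.v o).mem_O.1 hUt.2.2)
    rwa [add_zero] at this
  have h4 : w / t ∈ V := by
    have := add_mem (one_mem V) (B.small V o h2 _ h3).1
    rwa [sub_mul, mul_inv_cancel₀ hUt.1, add_sub_cancel, ← div_eq_mul_inv] at this
  have h5 := add_mem (mul_mem (pow_mem (hw V h1 h2) e) (B.small V o h2 _ hg1).1)
    (mul_mem (pow_mem h4 e) (h1 g hgA))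
  rwa [show w ^ e * (x - g / t ^ e) + (w / t) ^ e * g = w ^ e * x by rw [div_pow]; ring] at h5

end RNkR

theorem rNkR : OfNkR := by
  intro E hS n f M o c u g₀ g hM hg₀ h0 hv hg hI
  classical
  have B := E.bas _ f M hM
  obtain ⟨b0, hb0⟩ := hM.ne o
  obtain ⟨-, hη, -⟩ := hM.dv b0 o hb0
  obtain ⟨y0, hy0, vy0⟩ : ∃ y0 : KK (n + 1), y0 ≠ 0 ∧ (M.v o).v y0 = -u o :=
    ⟨M.η b0 o ^ (-u o), zpow_ne_zero _ (M.η_ne b0 o), by rw [(M.v o).zpow, hη, mul_one]⟩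
  obtain ⟨hf0, hf1⟩ := (B.gen_v o _ _).1 (B.gen_f (M.v o).O)
  have hf2 : 0 < (M.v o).v (ip _ f) := by
    rw [hf1]
    have := hM.pos o
    simp only [Pi.neg_apply, neg_neg, N3.Mod.aa]
    exact_mod_cast this
  have key : ∀ b, ∃ s : KK (n + 1), s ≠ 0 ∧ (M.v o).v s = 0 ∧ ∀ V : Vl (n + 1),
      (∀ c : ℂ, algebraMap ℂ _ c ∈ V) → ip _ f ∈ V → (∀ i, g i / g₀ ∈ V) →
      s ∈ V ∧ (M.In b V → s * (y0 * M.mon b u) ∈ V) := by
    intro b
    obtain ⟨a, ha, ha0, haz⟩ := TC.RNk.clear M o b (y0 * M.mon b u)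
      (mul_ne_zero hy0 (M.mon_ne b u))
      fun hb => by rw [(M.v o).mul _ _ hy0 (M.mon_ne b u), vy0, B.v_mon b o u hb]; ring
    obtain ⟨s, hs0, hs1, hs⟩ := hS n (M.v o) (ip _ f) (fun i => g i / g₀) hf0 hf2 hI _ haz
    refine ⟨s, hs0, hs1, fun V h1 h2 h3 => ⟨(hs V h1 h2 h3).1, fun hb => ?_⟩⟩
    have := mul_mem (hs V h1 h2 h3).2 (hb a ha)
    rwa [mul_assoc, div_mul_cancel₀ _ ha0] at this
  choose s hs0 hs1 hs using key
  have ht : ∀ b V, M.In b V → V ≤ (M.v o).O → g₀ * M.mon b c ∈ V :=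
    fun b V h1 h2 => hg₀ V (B.ov b V h1) h2 b h1
  have aw : ∀ b, ∃ e : ℕ, ∀ V, M.In b V → V ≤ (M.v o).O →
      (g₀ * M.mon b c) ^ e * (y0 * (∏ b', s b') * M.mon b u) ∈ V := by
    intro b
    refine RNkR.aw E hM o b _ _ (ht b) (fun hb => (M.v o).un_O.2
      ⟨mul_ne_zero h0 (M.mon_ne b c), ?_⟩) fun V hb hV hti => ?_
    · rw [(M.v o).mul _ _ h0 (M.mon_ne b c), hv, B.v_mon b o c hb, neg_add_cancel]
    have h1 : ∀ c : ℂ, algebraMap ℂ (KK (n + 1)) c ∈ V := fun c =>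
      hb _ ((M.S.A b).algebraMap_mem c)
    have h2 : ip _ f ∈ V := hb _ (hM.pol b f)
    have h3 : ∀ i, g i / g₀ ∈ V := fun i => by
      have := mul_mem (hg i V (B.ov b V hb) hV b hb) hti
      rwa [← div_eq_mul_inv, mul_div_mul_right _ _ (M.mon_ne b c)] at this
    have h4 : ∏ b' ∈ Finset.univ.erase b, s b' ∈ V :=
      prod_mem fun b' _ => (hs b' V h1 h2 h3).1
    have := mul_mem ((hs b V h1 h2 h3).2 hb) h4
    rwa [show s b * (y0 * M.mon b u) * ∏ b' ∈ Finset.univ.erase b, s b' =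
      y0 * (s b * ∏ b' ∈ Finset.univ.erase b, s b') * M.mon b u by ring,
      Finset.mul_prod_erase _ _ (Finset.mem_univ b)] at this
  choose e he using aw
  have hp0 : ∏ b', s b' ≠ 0 := Finset.prod_ne_zero_iff.2 fun b _ => hs0 b
  refine ⟨∑ b, e b, g₀ ^ (∑ b, e b) * (y0 * ∏ b', s b'), fun V _ hV b hb => ?_,
    mul_ne_zero (pow_ne_zero _ h0) (mul_ne_zero hy0 hp0), ?_⟩
  · have hle : e b ≤ ∑ b, e b :=
      Finset.single_le_sum (fun i _ => Nat.zero_le (e i)) (Finset.mem_univ b)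
    obtain ⟨k, hk⟩ := Nat.exists_eq_add_of_le hle
    have := mul_mem (pow_mem (ht b V hb hV) k) (he b V hb hV)
    rw [B.mon_add, B.mon_nsmul, hk]
    rwa [show (g₀ * M.mon b c) ^ k * ((g₀ * M.mon b c) ^ e b *
      (y0 * (∏ b', s b') * M.mon b u)) = g₀ ^ (e b + k) * (y0 * ∏ b', s b') *
        (M.mon b c ^ (e b + k) * M.mon b u) by ring] at this
  · rw [(M.v o).mul _ _ (pow_ne_zero _ h0) (mul_ne_zero hy0 hp0), (M.v o).pow,
      (M.v o).mul _ _ hy0 hp0, (M.v o).prod _ fun b _ => hs0 b, hv, vy0,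
      Finset.sum_eq_zero fun b _ => hs1 b, Pi.add_apply, Pi.smul_apply, nsmul_eq_mul]
    ring

end Pool.Agent.MP_ee8c61_ag.N3.LC
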