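import Pool.Agent.MP_ee8c61_ag.TY.RAbs
import Pool.Agent.MP_ee8c61_ag.TY.RCht
import Pool.Agent.MP_ee8c61_ag.TY.REnd
import Pool.Agent.MP_ee8c61_ag.TY.RLift
import Pool.Agent.MP_ee8c61_ag.TY.RMain
import Pool.Agent.MP_ee8c61_ag.TY.RMin
import Pool.Agent.MP_ee8c61_ag.TY.RMinA
import Pool.Agent.MP_ee8c61_ag.TY.RNkR
import Pool.Agent.MP_ee8c61_ag.TW.Final

/-! A divisor of the log canonical model gives a root. -/

namespace Pool.Agent.MP_ee8c61_ag.N3.LC

open N3.M3E (eout)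
open Pool.Agent.MP_ee8c61_ag.TC (rowSs rowPert)
open N3.TC (rNk rAmp rBas rReal rCen)

theorem sabs [Base] : SAbs :=
  rAbs eout (rMin eout rMinA) (rNkR eout rowSs) (rAmp eout) (rLift eout)
    (rEnd eout (M3L.sr1 eout) (rNk eout rowSs) rowPert)

theorem main : Main :=
  rMain rBas (fun _ => eout) (fun _ => rReal eout B1.sb1raw (rCen eout)) (fun _ => rCht eout)
    fun _ => sabs

end Pool.Agent.MP_ee8c61_ag.N3.LC
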