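import Pool.Agent.MP_ee8c61_ag.TY.Spec

/-! Logarithmic sections with poles along a free divisor give a root. -/

namespace Pool.Agent.MP_ee8c61_ag.N3.LC

open Pool.Agent.MP_ee8c61_ag.TC (Indep SPert SSs)

variable [Base]

open M3 N3.M3E

namespace RAbs

omit [Base] in
/-- A common denominator. -/
theorem den {J : Type} [Fintype J] (L : J → ℚ) (m : ℕ) : ∃ (ν : ℕ) (c : J → ℤ), 1 ≤ ν ∧
    ∀ j, (c j : ℚ) = (((ν + 1) * m : ℕ) : ℚ) * L j := by
  have d0 : 0 < ∏ j, (L j).den := Finset.prod_pos fun j _ => (L j).den_pos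
  have h : ∀ j, ∃ c : ℤ, (c : ℚ) = ((2 * (∏ j, (L j).den) * m : ℕ) : ℚ) * L j := fun j => by
    obtain ⟨x, hx⟩ := Finset.dvd_prod_of_mem (fun j => (L j).den) (Finset.mem_univ j)
    refine ⟨2 * x * m * (L j).num, ?_⟩
    rw [hx]
    push_cast
    rw [← Rat.mul_den_eq_num]
    ring
  choose c hc using h
  refine ⟨2 * (∏ j, (L j).den) - 1, c, by omega, fun j => ?_⟩
  rw [hc, Nat.sub_add_cancel (by omega)]

end RAbs

theorem rAbs : OfAbs := by
  intro E hMin hN hA hL hE n f la b β Q M o P m s₀ s hb hM hex fr hm Po h0 h0' n0 v0 hs hs' hI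
  have B := E.bas _ f M hM
  have aq := E.aq _ f M hM
  have ko : (m • (M.kk + 1)) o = P o := by simp [Po, Mod.kk, mul_add]
  set G : M.J → ℤ := m • (M.kk + 1) ⊓ P with hG
  have Go : G o = m * (M.k o + 1) := by rw [hG, Pi.inf_apply, ko, inf_idem, Po]
  have G1 : ∀ j, G j ≤ m * (M.k j + 1) := fun j => by
    have h : G j ≤ (m • (M.kk + 1)) j := inf_le_left
    simpa [Mod.kk, mul_add] using h
  have G2 : ∀ j, G j ≤ P j := fun j => inf_le_right
  have g0 : s₀ ∈ M.R o G := hMin _ f M hM o _ _ ko s₀ h0 h0'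
  have g1 : ∀ i, s i ∈ M.R o G := fun i => hMin _ f M hM o _ _ ko _ (hs i) (hs' i)
  have v1 : (M.v o).v s₀ = -G o := by rw [v0, Go, Po]
  obtain ⟨r, t, t1, t0, t2⟩ := hN n f M o G (M.e o - 1) s₀ s hM g0 n0 v1 g1 hI
  obtain ⟨A₀, a1, a2, a3, -, -⟩ := hA _ f M o 0 hM B.free_zero le_rfl rfl
  have m0 : (0 : ℚ) < m := by exact_mod_cast hm
  have r0 : (0 : ℚ) < (r + 1) * m := by positivity
  set A : M.J → ℚ := (1 / ((r + 1) * m) : ℚ) • A₀ + (1 / m : ℚ) • M.q P with hAd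
  have A1 : M.AmpQ A := aq.add _ _ (aq.smul _ _ (by positivity) a1)
    (aq.smul' _ _ (by positivity) (aq.of_free P fr))
  have A2 : ∀ j, (r + 1) * m * A j = A₀ j + (r + 1) * P j := fun j => by
    simp only [hAd, Pi.add_apply, Pi.smul_apply, smul_eq_mul, Mod.q]
    field_simp
  have Ao : A o = M.k o + 1 := by
    refine mul_left_cancel₀ r0.ne' ?_
    rw [A2, a2, Po]
    push_cast
    ring
  obtain ⟨ν, c, ν1, hc⟩ := RAbs.den (fun j => max (M.k j : ℚ) (min (A j) (M.k j + 1)))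
    ((r + 1) * m)
  have p0 : 0 < (r + 1) * m := Nat.mul_pos r.succ_pos hm
  set D : M.J → ℤ := r • G + (M.e o - 1) + G with hD
  have D1 : ∀ j, D j = (r + 1) * G j + (M.e o j - 1) := fun j => by
    simp only [hD, Pi.add_apply, Pi.mul_apply, Pi.natCast_apply, Pi.sub_apply, Pi.one_apply,
      nsmul_eq_mul]
    ring
  have u1 : ∀ j, ((M.e o j - 1 : ℤ) : ℚ) ≤ A₀ j ∧ ((M.e o j - 1 : ℤ) : ℚ) ≤ 0 := fun j => by
    by_cases h : j = o
    · simp [h, a2, Mod.e_apply]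
    · have h1 : (-1 : ℤ) < ⌈A₀ j⌉ := lt_of_lt_of_le (by norm_num) (a3 j)
      have h2 := Int.lt_ceil.1 h1
      simp only [Mod.e_apply, if_neg h]
      push_cast at h2 ⊢
      constructor <;> linarith
  have D2 : ∀ j, (ν • D + D) j ≤ c j := fun j => by
    have h1 : (G j : ℚ) ≤ m * (M.k j + 1) := by exact_mod_cast G1 j
    have h2 : (G j : ℚ) ≤ P j := by exact_mod_cast G2 j
    have h3 : (0 : ℚ) ≤ r + 1 := by positivity
    have h4 : (D j : ℚ) ≤ (r + 1) * m * min (A j) (M.k j + 1) := by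
      rw [mul_min_of_nonneg _ _ r0.le, A2, D1, Int.cast_add, Int.cast_mul]
      have h5 := mul_le_mul_of_nonneg_left h1 h3
      have h6 := mul_le_mul_of_nonneg_left h2 h3
      obtain ⟨h7, h8⟩ := u1 j
      rw [Int.cast_add, Int.cast_one, Int.cast_natCast]
      exact le_min (by linarith) (by linarith)
    have h5 := h4.trans (mul_le_mul_of_nonneg_left (le_max_right (M.k j : ℚ) _) r0.le)
    have h6 := mul_le_mul_of_nonneg_left h5 (show (0 : ℚ) ≤ ν + 1 by positivity)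
    rw [← Int.cast_le (R := ℚ), hc]
    simp only [Pi.add_apply, Pi.mul_apply, Pi.natCast_apply, nsmul_eq_mul]
    push_cast
    linarith
  have co : c o = (((ν + 1) * ((r + 1) * m) : ℕ) : ℤ) * (M.k o + 1) := by
    rw [← Int.cast_inj (α := ℚ), hc, Ao, min_self, max_eq_right (by linarith)]
    push_cast
    ring
  have lf : ∀ x ∈ M.R o G, M.Lf o c ((t * s₀) ^ ν * (t * x)) := fun x hx =>
    hL _ f M hM o A _ c A1 Ao (by nlinarith) hc _ fun V h1 h2 =>
      B.oc_mono V _ _ _ (fun j _ => D2 j) (B.oc_mul V _ _ _ _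
        (B.oc_pow V _ _ ν (B.oc_mul V _ _ _ _ (t1 V h1 h2) (g0 V h1 h2)))
        (B.oc_mul V _ _ _ _ (t1 V h1 h2) (hx V h1 h2)))
  have ts : t * s₀ ≠ 0 := mul_ne_zero t0 n0
  refine hE n f la b β Q M o c _ ((t * s₀) ^ ν * (t * s₀)) (fun i => (t * s₀) ^ ν * (t * s i))
    hb hM hex (Nat.mul_pos ν.succ_pos p0) (fun j => ?_) co (lf _ g0)
    (mul_ne_zero (pow_ne_zero _ ts) ts) ?_ (fun i => lf _ (g1 i)) ?_
  · have h1 : max (M.k j : ℚ) (min (A j) (M.k j + 1)) ≤ M.k j + 1 :=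
      max_le (by linarith) (min_le_right _ _)
    have h2 := mul_le_mul_of_nonneg_left h1
      (Nat.cast_nonneg (α := ℚ) ((ν + 1) * ((r + 1) * m)))
    rw [← Int.cast_le (R := ℚ), hc]
    simp only [Pi.add_apply, Pi.mul_apply, Pi.natCast_apply, nsmul_eq_mul, Pi.one_apply, Mod.kk]
    exact_mod_cast h2
  · rw [← pow_succ, (M.v o).pow, (M.v o).mul _ _ t0 n0, t2, v1, co]
    simp only [Pi.add_apply, Pi.mul_apply, Pi.natCast_apply, Pi.sub_apply, Pi.one_apply,
      nsmul_eq_mul, Go,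
      Mod.e_apply, if_true]
    push_cast
    ring
  · refine Eq.subst (motive := Indep (M.v o)) (funext fun i => ?_) hI
    rw [mul_div_mul_left _ _ (pow_ne_zero _ ts), mul_div_mul_left _ _ t0]

end Pool.Agent.MP_ee8c61_ag.N3.LC
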