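import Pool.Agent.MP_ee8c61_ag.TY.Stmt
import Pool.Agent.MP_ee8c61_ag.TW.Spec

/-! A divisor of the log canonical model gives a root: the statements over a base. -/

namespace Pool.Agent.MP_ee8c61_ag.N3.LC

open H59 hiding pd
open MvPolynomial M3 M3E
open Pool.Agent.MP_ee8c61_ag.TC (Indep SPert SSs)
open Pool.Agent.MP_ee8c61_ag.N3.TC (SNk SAmp SReal SBas)

noncomputable section

/-- Coprime monomials on a coordinate hyperplane of an etale chart. -/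
def SMinA : Prop := ∀ (A : Type) [CommRing A] [Algebra ℂ A] (N : ℕ) (z : Fin N → A) (l : Fin N)
  (p p' : Fin N → ℕ) (a a' : A), (aeval (R := ℂ) z).toRingHom.Etale → p' l = 0 →
  (∀ k, p k = 0 ∨ p' k = 0) → z l ∣ a * ∏ k, z k ^ p' k - a' * ∏ k, z k ^ p k →
  ∃ y, z l ∣ a - y * ∏ k, z k ^ p k

section Base

variable [Base]

/-- A section of two divisors is a section of their infimum. -/
def SMin : Prop := AllM fun _ M => ∀ (o : M.J) (c c' : M.J → ℤ), c o = c' o →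
  ∀ s ∈ M.R o c, s ∈ M.R o c' → s ∈ M.R o (c ⊓ c')

def OfMin : Prop := EOut → SMinA → SMin

/-- The lemma of Kodaira on the divisor. -/
def SNkR : Prop := ∀ (n : ℕ) (f : Po (n + 1)) (M : Mod (n + 1)) (o : M.J) (c u : M.J → ℤ)
  (s₀ : KK (n + 1)) (s : Fin n → KK (n + 1)), M.OK f → s₀ ∈ M.R o c → s₀ ≠ 0 →
  (M.v o).v s₀ = -c o → (∀ i, s i ∈ M.R o c) → Indep (M.v o) (fun i => s i / s₀) →
  ∃ (r : ℕ) (t : KK (n + 1)), t ∈ M.R o (r • c + u) ∧ t ≠ 0 ∧ (M.v o).v t = -(r • c + u) o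

def OfNkR : Prop := EOut → SSs → SNkR

/-- Pluricanonical sections lift. -/
def SLift : Prop := AllM fun _ M => ∀ (o : M.J) (A : M.J → ℚ) (m : ℕ) (c : M.J → ℤ), M.AmpQ A →
  A o = M.k o + 1 → 2 ≤ m → (∀ j, (c j : ℚ) = m * max (M.k j : ℚ) (min (A j) (M.k j + 1))) →
  ∀ σ ∈ M.R o c, M.Lf o c σ

def OfLift : Prop := EOut → SLift

/-- Independent sections that lift give a root. -/
def SEnd : Prop := ∀ (n : ℕ) (f : Po (n + 1)) (la : ℚ) (b : Polynomial ℂ)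
  (β : Fin (n + 1) → PX (n + 1) (KK (n + 1))) (Q : PX (n + 1) (KK (n + 1))) (M : Mod (n + 1))
  (o : M.J) (c : M.J → ℤ) (m : ℕ) (s₀ : KK (n + 1)) (s : Fin n → KK (n + 1)),
  BSd f b β Q → M.OK f → M.ex la o = 0 → 0 < m → c ≤ m • (M.kk + 1) → c o = m * (M.k o + 1) →
  M.Lf o c s₀ → s₀ ≠ 0 → (M.v o).v s₀ = -c o → (∀ i, M.Lf o c (s i)) →
  Indep (M.v o) (fun i => s i / s₀) → b.eval (-(la : ℂ)) = 0

def OfEnd : Prop := EOut → SR1 → SNk → SPert → SEnd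

/-- Logarithmic sections on the divisor with poles along a free divisor give a root. -/
def SAbs : Prop := ∀ (n : ℕ) (f : Po (n + 1)) (la : ℚ) (b : Polynomial ℂ)
  (β : Fin (n + 1) → PX (n + 1) (KK (n + 1))) (Q : PX (n + 1) (KK (n + 1))) (M : Mod (n + 1))
  (o : M.J) (P : M.J → ℤ) (m : ℕ) (s₀ : KK (n + 1)) (s : Fin n → KK (n + 1)),
  BSd f b β Q → M.OK f → M.ex la o = 0 → M.Free P → 0 < m → P o = m * (M.k o + 1) →
  s₀ ∈ M.R o (m • (M.kk + 1)) → s₀ ∈ M.R o P → s₀ ≠ 0 → (M.v o).v s₀ = -P o →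
  (∀ i, s i ∈ M.R o (m • (M.kk + 1))) → (∀ i, s i ∈ M.R o P) →
  Indep (M.v o) (fun i => s i / s₀) → b.eval (-(la : ℂ)) = 0

def OfAbs : Prop := EOut → SMin → SNkR → SAmp → SLift → SEnd → SAbs

/-- The hypotheses in a model. -/
def SCht : Prop := ∀ (N r : ℕ) (F : Fin r → M3.Po N) (j : Fin r) (M : Mod N) (o : M.J),
  M.OK (pp N (F j)) → (∀ i, M3.ip N (F i) / M3.ip N (F j) ∈ Rb N) →
  (∀ a k, TY.Orders (F j) (M.v o).O a k → M.a o = a ∧ M.k o = k) ∧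
  ∀ (m : ℕ) (g : KK N), TY.LogPoles F j (M.v o).O m g →
    g ∈ M.R o (m • (M.kk + 1)) ∧ g ≠ 0 ∧ (M.v o).v g = -(m * (M.k o + 1))

def OfCht : Prop := EOut → SCht

end Base

open TW TY in
/-- The theorem. -/
def Main : Prop := ∀ (n r : ℕ) (f : Fin r → MvPolynomial (Fin (n + 1)) ℂ) (b : Polynomial ℂ)
  (j : Fin r) (O : ValuationSubring (K (n + 1))) (a k m : ℕ) (g : Fin (n + 1) → K (n + 1)),
  H10.IsBS f b → IsDiscreteValuationRing O → (∀ p, rf p ∈ O) → (∀ i, rf (f i) / rf (f j) ∈ O) →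
  f j ≠ 0 → O.valuation (rf (f j)) < 1 → Orders (f j) O a k → 0 < m →
  (∀ l, ∃ (e : ℕ) (p : MvPolynomial (Fin (n + 1)) ℂ), g l * rf (f j) ^ e = rf p) →
  (∀ l, LogPoles f j O m (g l)) →
  (∀ P : MvPolynomial (Fin n) ℂ, P ≠ 0 →
    O.valuation (aeval (fun i : Fin n => g i.succ / g 0) P) = 1) →
  b.eval (-((k + 1 : ℂ) / a)) = 0

def OfMain : Prop := SBas → (∀ _ : Base, EOut) → (∀ _ : Base, SReal) → (∀ _ : Base, SCht) →
  (∀ _ : Base, SAbs) → Main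

end

end Pool.Agent.MP_ee8c61_ag.N3.LC
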