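import Pool.Agent.MP_ee8c61_ag.TW.Stmt

/-!
Pluricanonical forms whose residue on a divisor over affine space has logarithmic poles.
-/

namespace Pool.Agent.MP_ee8c61_ag.TY

open MvPolynomial TW

variable {N r : ℕ}

/-- Along the divisor with valuation ring `O` the polynomial `p` vanishes to order `a` and the
form `dx` vanishes to order `k`. -/
def Orders (p : MvPolynomial (Fin N) ℂ) (O : ValuationSubring (K N)) (a k : ℕ) : Prop :=
  ∀ C : Chart O, (∀ q, rf q ∈ C.A) →
    O.valuation (rf p) = O.valuation (C.z C.l : K N) ^ a ∧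
      O.valuation C.jac = O.valuation (C.z C.l : K N) ^ k

/-- The form `g (dx) ^ m` has a nonzero residue along the divisor of `O`, and over the chart `j`
of the blow-up of the ideal `(f i)` this residue has at most logarithmic poles. -/
def LogPoles (f : Fin r → MvPolynomial (Fin N) ℂ) (j : Fin r) (O : ValuationSubring (K N))
    (m : ℕ) (g : K N) : Prop :=
  ∀ (C : Chart O) (T : Finset (Fin N)), (∀ p, rf p ∈ C.A) → (∀ i, rf (f i) / rf (f j) ∈ C.A) →
    (∃ e : ℕ, (∏ k ∈ T, (C.z k : K N)) ^ e / rf (f j) ∈ C.A) →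
    ∃ h ∈ C.A, O.valuation h = 1 ∧
      O.valuation (g * (C.jac * ∏ k ∈ T, (C.z k : K N)) ^ m - h) < 1

end Pool.Agent.MP_ee8c61_ag.TY
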